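import Pool.Agent.Helper14.TK.StA

/-!
# Project T3K: module TAT3 (Theorem A for the twisted path, final step with signs)
-/

set_option autoImplicit false

namespace Pool.Agent.Helper77.TA

open Pool.Agent.Helper14.TK Pool.Agent.Helper14.T3 Pool.Agent.Helper14.CV Pool.Agent.Helper14.W3 Pool.Agent.Helper78.W3

section

variable {R S : Type} [AddCommGroup R] [AddCommGroup S]

/-- composition with a homomorphism of groups -/
private def mp (φ : R →+ S) (G : ℤ → ℤ → R) : ℤ → ℤ → S := fun p q => φ (G p q)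

private theorem mp_act (φ : R →+ S) (a b c d : ℤ) (G : ℤ → ℤ → R) : mp φ (act a b c d G) = act a b c d (mp φ G) := rfl

private theorem mp_add (φ : R →+ S) (G H : ℤ → ℤ → R) : mp φ (G + H) = mp φ G + mp φ H := by
  funext p q; simp [mp]

private theorem mp_sub (φ : R →+ S) (G H : ℤ → ℤ → R) : mp φ (G - H) = mp φ G - mp φ H := by
  funext p q; simp [mp]

private theorem mp_neg (φ : R →+ S) (G : ℤ → ℤ → R) : mp φ (-G) = -mp φ G := by
  funext p q; simp [mp]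

private theorem mp_smul (φ : R →+ S) (k : ℤ) (G : ℤ → ℤ → R) : mp φ (k • G) = k • mp φ G := by
  funext p q
  simp only [mp, Pi.smul_apply]
  exact map_zsmul φ k (G p q)

private theorem mp_eqc (φ : R →+ S) {G H : ℤ → ℤ → R} (h : EqC G H) : EqC (mp φ G) (mp φ H) := by
  obtain ⟨c, hc⟩ := h
  exact ⟨φ c, fun p q hpq => by simp only [mp]; rw [hc p q hpq, map_add]⟩

private theorem mp_sym (φ : R →+ S) {r s : ℕ} {G : ℤ → ℤ → R} (h : Sym3 r s G) : Sym3 r s (mp φ G) :=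
  ⟨fun k p q hk hpq => by simp only [mp]; rw [h.1 k p q hk hpq],
    fun a b c d hd hb hc => mp_eqc φ (h.2 a b c d hd hb hc)⟩

/-- `k (k x) = x` for a sign `k` -/
private theorem sgn2 {k : ℤ} (hk : k * k = 1) (G : ℤ → ℤ → R) : k • (k • G) = G := by
  rw [smul_smul, hk, one_smul]

/-- `W = -k` for `H = H1 - k W H1` -/
private theorem sym_H {w : ℤ} {k : ℤ} (hk : k * k = 1) {H1 : ℤ → ℤ → R}
    (c1 : EqC (act 0 (-1) w 0 (act 0 (-1) w 0 H1)) H1) :
    EqC (act 0 (-1) w 0 (H1 - k • act 0 (-1) w 0 H1)) (-(k • (H1 - k • act 0 (-1) w 0 H1))) := by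
  rw [act_sub, act_smul, smul_sub, sgn2 hk, neg_sub]
  exact (EqC.refl _).sub (c1.smul k)

/-- `W = -k` for `H + e * H` -/
private theorem sym_W {w : ℤ} {k e : ℤ} {H : ℤ → ℤ → R}
    (c1 : EqC (act 0 (-1) w 0 H) (-(k • H)))
    (c2 : EqC (act 0 (-1) w 0 (act (-1) 0 0 1 H)) (act (-1) 0 0 1 (act 0 (-1) w 0 H))) :
    EqC (act 0 (-1) w 0 (H + e • act (-1) 0 0 1 H)) (-(k • (H + e • act (-1) 0 0 1 H))) := by
  rw [act_add, act_smul, smul_add, neg_add]
  refine c1.add ?_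
  have h1 : EqC (act (-1) 0 0 1 (act 0 (-1) w 0 H)) (-(k • act (-1) 0 0 1 H)) := by
    rw [← act_smul, ← act_neg]
    exact c1.act (by norm_num)
  have h2 := (c2.trans h1).smul e
  rw [smul_neg, smul_comm e k] at h2
  exact h2

/-- `* = e` for `H + e * H` -/
private theorem sym_T {e : ℤ} (he : e * e = 1) {H : ℤ → ℤ → R} (c : EqC (act (-1) 0 0 1 (act (-1) 0 0 1 H)) H) :
    EqC (act (-1) 0 0 1 (H + e • act (-1) 0 0 1 H)) (e • (H + e • act (-1) 0 0 1 H)) := by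
  rw [act_add, act_smul, smul_add, sgn2 he, add_comm (e • H)]
  exact (EqC.refl _).add (c.smul e)

end

/-- an inverse modulo `3 ^ M` -/
private theorem inv3 {d : ℤ} (hd : ¬ (3 : ℤ) ∣ d) (M : ℕ) : ∃ d' : ℤ, ((d' * d : ℤ) : ZMod (3 ^ M)) = 1 := by
  have h1 : IsCoprime ((3 : ℤ) ^ M) d := (Int.prime_three.coprime_iff_not_dvd.2 hd).pow_left
  obtain ⟨a, b, h⟩ := h1
  refine ⟨b, ?_⟩
  have h2 : b * d = 1 - a * 3 ^ M := by linarith
  rw [h2]
  push_cast
  have h3 : ((3 : ZMod (3 ^ M))) ^ M = 0 := by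
    have := ZMod.natCast_self (3 ^ M)
    push_cast at this
    exact this
  rw [h3, mul_zero, sub_zero]

/-- `evT` of an integral symbol without values -/
private theorem ev_int (hU : Unb3) {D m : ℕ} (hD : D ≠ 0) {G : ℤ → ℤ → ℤ} (hG : Sym3 0 m G)
    (hv : ∀ i j : ℕ, evTb D 1 G i j = 0) : evT D (mp (Int.castAddHom ℂ) G) = 0 := by
  have h := (hU D 0 m G hD hG).2
  have e : (fun p q : ℤ => ((G (3 ^ 0 * p) q : ℤ) : ℂ)) = mp (Int.castAddHom ℂ) G := by
    funext p q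
    simp [mp]
  rw [e] at h
  funext i j
  rw [h i j]
  have := hv i j
  simp only [pow_zero] at *
  rw [this]
  simp

/-- TAT3 -/
theorem hTAT3 : StTAT3 := by
  intro hNrm hCom hU hCrm hK hInt D s dd hf m M g hm hg hW hT hev
  obtain ⟨d, G1, hd, s1, v1, e1⟩ := hCrm D s dd hf m M g hm hg hev
  have hw : (3 : ℤ) ^ m ≠ 0 := pow_ne_zero _ (by norm_num)
  have hss : s * s = 1 := by
    rcases hf.sg with h | h <;> rw [h] <;> norm_num
  have hkk : kw s m * kw s m = 1 := by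
    unfold kw
    have h1 : ((-1 : ℤ) ^ m) * ((-1 : ℤ) ^ m) = 1 := by
      rw [← mul_pow]
      norm_num
    calc s * (-1) ^ m * (s * (-1) ^ m) = (s * s) * ((-1 : ℤ) ^ m * (-1) ^ m) := by ring
      _ = 1 := by rw [hss, h1, one_mul]
  set k : ℤ := kw s m with hk
  -- the integral symbol
  set G2 : ℤ → ℤ → ℤ := G1 - k • act 0 (-1) (3 ^ m) 0 G1 + s • act (-1) 0 0 1 (G1 - k • act 0 (-1) (3 ^ m) 0 G1)
    with hG2
  set φ : ℤ →+ ℂ := Int.castAddHom ℂ with hφ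
  set H1 : ℤ → ℤ → ℂ := mp φ G1 with hH1
  have t1 : Sym3 0 m H1 := mp_sym φ s1
  have w1 : evT D H1 = 0 := ev_int hU hf.d0 s1 v1
  set H : ℤ → ℤ → ℂ := H1 - k • act 0 (-1) (3 ^ m) 0 H1 with hH
  have eH2 : mp φ G2 = H + s • act (-1) 0 0 1 H := by
    rw [hG2, mp_add, mp_smul, mp_act, mp_sub, mp_smul, mp_act]
  have t2 : Sym3 0 m H := t1.sub ((hNrm m H1 (by omega) t1).1.smul k)
  have t3 : Sym3 0 m (H + s • act (-1) 0 0 1 H) := t2.add ((hNrm m H (by omega) t2).2.2.2.2.2.smul s)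
  have k1 := hCom m H1 hm t1
  have k2 := hCom m H hm t2
  have a1 : EqC (act 0 (-1) (3 ^ m) 0 (H + s • act (-1) 0 0 1 H)) (-(k • (H + s • act (-1) 0 0 1 H))) :=
    sym_W (sym_H hkk k1.2.2.2.2.1) k2.2.2.2.2.2.2.2.2.2.2.2.1
  have a2 : EqC (act (-1) 0 0 1 (H + s • act (-1) 0 0 1 H)) (s • (H + s • act (-1) 0 0 1 H)) :=
    sym_T hss k2.2.2.2.2.2.1
  have a3 : evT D (H + s • act (-1) 0 0 1 H) = 0 := by
    have b1 : evT D H = 0 := by
      rw [hH, map_sub, map_zsmul, (hf.sgn m H1 (by omega) t1).1, w1]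
      simp
    rw [map_add, map_zsmul, (hf.sgn m H (by omega) t2).2, b1]
    simp
  obtain ⟨ψ0, p1, p2⟩ := hK D s dd hf m _ hm t3 a1 a2 a3
  have p3 : EqC (-act 3 0 0 1 ψ0 - ψ0) (fun p q => ((G2 p q : ℤ) : ℂ)) := by
    rw [← eH2] at p2
    exact p2
  obtain ⟨ψ1, q1, q2⟩ := hInt (m - 1) ψ0 G2 p1 p3
  -- reduction
  obtain ⟨d', hd'⟩ := inv3 hd M
  set χ : ℤ →+ ZMod (3 ^ M) := Int.castAddHom (ZMod (3 ^ M)) with hχ
  have r1 : Sym3 0 (m - 1) (mp χ ψ1) := mp_sym χ q1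
  have r2 : EqC (-act 3 0 0 1 (mp χ ψ1) - mp χ ψ1) (mp χ G2) := by
    have := mp_eqc χ q2
    rw [mp_sub, mp_neg, mp_act] at this
    exact this
  have e1' : EqC (mp χ G1) (d • g) := e1
  have u1 : EqC (k • act 0 (-1) (3 ^ m) 0 (mp χ G1)) (-(d • g)) := by
    have h1 : EqC (act 0 (-1) (3 ^ m) 0 (mp χ G1)) (d • -(k • g)) := by
      refine (e1'.act (by simpa using hw)).trans ?_
      rw [act_smul]
      exact hW.smul d
    have h2 := h1.smul k
    rw [smul_comm k d, smul_neg, sgn2 hkk, smul_neg] at h2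
    exact h2
  have u2 : EqC (mp χ G1 - k • act 0 (-1) (3 ^ m) 0 (mp χ G1)) (d • g + d • g) := by
    have := e1'.sub u1
    rw [sub_neg_eq_add] at this
    exact this
  have u3 : EqC (s • act (-1) 0 0 1 (mp χ G1 - k • act 0 (-1) (3 ^ m) 0 (mp χ G1))) (d • g + d • g) := by
    have h1 : EqC (act (-1) 0 0 1 (mp χ G1 - k • act 0 (-1) (3 ^ m) 0 (mp χ G1))) (d • (s • g) + d • (s • g)) := by
      refine (u2.act (by norm_num)).trans ?_
      rw [act_add, act_smul]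
      exact (hT.smul d).add (hT.smul d)
    have h2 := h1.smul s
    rw [smul_add, smul_comm s d, sgn2 hss] at h2
    exact h2
  have u4 : EqC (mp χ G2) (d • g + d • g + (d • g + d • g)) := by
    rw [hG2, mp_add, mp_smul, mp_act, mp_sub, mp_smul, mp_act]
    exact u2.add u3
  refine ⟨d' • mp χ ψ1, r1.smul d', ?_⟩
  have u5 := (r2.trans u4).smul d'
  have e5 : d' • (-act 3 0 0 1 (mp χ ψ1) - mp χ ψ1) = -act 3 0 0 1 (d' • mp χ ψ1) - d' • mp χ ψ1 := by
    rw [smul_sub, act_smul, smul_neg]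
  have e6 : d' • (d • g + d • g + (d • g + d • g)) = (4 : ℤ) • g := by
    funext p q
    have h1 : ∀ x : ZMod (3 ^ M), d' • (d • x) = x := fun x => by
      rw [smul_smul, zsmul_eq_mul, hd', one_mul]
    simp only [Pi.smul_apply, Pi.add_apply, smul_add, h1]
    rw [zsmul_eq_mul]
    push_cast
    ring
  rw [e5, e6] at u5
  exact u5

end Pool.Agent.Helper77.TA
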